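import Pool.Agent.Y607.SV.Select
import Pool.Agent.Helper118.Width.G2

/-!
# The order of a series with small coefficients, and the positive part
-/

set_option autoImplicit false

open Finset Metric Filter Width

namespace Pool.Agent.Y607.SV

theorem coeff_le_of_vv {a : ℕ → ℂ} {s C : ℝ} {k : ℕ} (hk : 1 ≤ k)
    (h : vv a (1 / s) k ≤ C) : ‖a k‖ ≤ (C / (k : ℝ) ^ (1 / s)) ^ k := by
  have hk0 : (0 : ℝ) < k := by exact_mod_cast hk
  have h1 : 0 < (k : ℝ) ^ (1 / s) := Real.rpow_pos_of_pos hk0 _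
  unfold vv at h
  rw [← le_div_iff₀ h1] at h
  calc ‖a k‖ = (‖a k‖ ^ (1 / (k : ℝ))) ^ k := by
        rw [← Real.rpow_natCast, ← Real.rpow_mul (norm_nonneg _), one_div_mul_cancel hk0.ne',
          Real.rpow_one]
    _ ≤ _ := pow_le_pow_left₀ (by positivity) h _

theorem sum_le_of_vv {a : ℕ → ℂ} {s C : ℝ} (hs : 0 < s) (hC : 1 ≤ C)
    (h : ∀ k, 1 ≤ k → vv a (1 / s) k ≤ C) {r : ℝ} (hr : 1 ≤ r) (n : ℕ) :
    ∑ k ∈ range n, ‖a k‖ * r ^ k ≤
      ‖a 0‖ + 2 + ((2 * C * r) ^ s + 1) * (C * r) ^ ((2 * C * r) ^ s) := by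
  set X : ℝ := (2 * C * r) ^ s with hX
  have hCr : 1 ≤ C * r := one_le_mul_of_one_le_of_one_le hC hr
  have h2Cr : 0 < 2 * C * r := by positivity
  have hX0 : 0 < X := Real.rpow_pos_of_pos h2Cr _
  have hA : ∀ k : ℕ, ‖a k‖ * r ^ k ≤
      (if k = 0 then ‖a 0‖ else 0) + (1 / 2) ^ k + (if k ≤ ⌊X⌋₊ then (C * r) ^ X else 0) := by
    intro k
    rcases Nat.eq_zero_or_pos k with h0 | h0
    · subst h0
      rw [pow_zero, mul_one, if_pos rfl, pow_zero, if_pos (Nat.zero_le _)]
      have : 0 ≤ (C * r) ^ X := by positivity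
      linarith
    · have hk0 : (0 : ℝ) < k := by exact_mod_cast h0
      rw [if_neg h0.ne', zero_add]
      have h1 := coeff_le_of_vv h0 (h k h0)
      have h2 : ‖a k‖ * r ^ k ≤ (C * r / (k : ℝ) ^ (1 / s)) ^ k := by
        calc ‖a k‖ * r ^ k ≤ (C / (k : ℝ) ^ (1 / s)) ^ k * r ^ k :=
              mul_le_mul_of_nonneg_right h1 (by positivity)
          _ = _ := by rw [← mul_pow, div_mul_eq_mul_div]
      have hks : 0 < (k : ℝ) ^ (1 / s) := Real.rpow_pos_of_pos hk0 _
      split_ifs with hkX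
      · have h3 : (C * r / (k : ℝ) ^ (1 / s)) ^ k ≤ (C * r) ^ X := by
          have h4 : C * r / (k : ℝ) ^ (1 / s) ≤ C * r := by
            apply div_le_self (by positivity)
            exact Real.one_le_rpow (by exact_mod_cast h0) (by positivity)
          calc (C * r / (k : ℝ) ^ (1 / s)) ^ k ≤ (C * r) ^ k :=
                pow_le_pow_left₀ (by positivity) h4 _
            _ = (C * r) ^ (k : ℝ) := (Real.rpow_natCast _ _).symm
            _ ≤ (C * r) ^ X := Real.rpow_le_rpow_of_exponent_le hCr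
                ((Nat.le_floor_iff hX0.le).1 hkX)
        have h5 : (0 : ℝ) < (1 / 2) ^ k := by positivity
        linarith
      · rw [add_zero]
        refine h2.trans (pow_le_pow_left₀ (by positivity) ?_ _)
        rw [not_le, Nat.floor_lt hX0.le] at hkX
        have h6 : 2 * C * r ≤ (k : ℝ) ^ (1 / s) := by
          have h7 := Real.rpow_le_rpow hX0.le hkX.le (show 0 ≤ 1 / s by positivity)
          rwa [hX, ← Real.rpow_mul h2Cr.le, mul_one_div_cancel hs.ne', Real.rpow_one] at h7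
        rw [div_le_iff₀ hks]
        linarith
  have hB : ∑ k ∈ range n, (if k = 0 then ‖a 0‖ else 0) ≤ ‖a 0‖ := by
    rw [sum_ite_eq' (range n) 0 (fun _ => ‖a 0‖)]
    split_ifs
    · exact le_rfl
    · exact norm_nonneg _
  have hG : ∑ k ∈ range n, (1 / 2 : ℝ) ^ k ≤ 2 := by
    have := (summable_geometric_of_lt_one (r := (1 / 2 : ℝ)) (by norm_num)
      (by norm_num)).sum_le_tsum (range n) fun k _ => by positivity
    rw [tsum_geometric_of_lt_one (by norm_num) (by norm_num)] at this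
    norm_num at this ⊢
    exact this
  have hD : ∑ k ∈ range n, (if k ≤ ⌊X⌋₊ then (C * r) ^ X else 0) ≤ (X + 1) * (C * r) ^ X := by
    rw [← sum_filter, sum_const, nsmul_eq_mul]
    refine mul_le_mul_of_nonneg_right ?_ (by positivity)
    have h1 : ((range n).filter fun k => k ≤ ⌊X⌋₊).card ≤ ⌊X⌋₊ + 1 := by
      calc ((range n).filter fun k => k ≤ ⌊X⌋₊).card ≤ (range (⌊X⌋₊ + 1)).card := by
            apply card_le_card
            intro k hk
            rw [mem_filter] at hk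
            exact mem_range.2 (by omega)
        _ = _ := card_range _
    calc (((range n).filter fun k => k ≤ ⌊X⌋₊).card : ℝ) ≤ ((⌊X⌋₊ + 1 : ℕ) : ℝ) := by
          exact_mod_cast h1
      _ ≤ X + 1 := by
          push_cast
          have := Nat.floor_le hX0.le
          linarith
  calc ∑ k ∈ range n, ‖a k‖ * r ^ k ≤ ∑ k ∈ range n, ((if k = 0 then ‖a 0‖ else 0) +
        (1 / 2) ^ k + (if k ≤ ⌊X⌋₊ then (C * r) ^ X else 0)) := sum_le_sum fun k _ => hA k
    _ = _ := by rw [sum_add_distrib, sum_add_distrib]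
    _ ≤ _ := by linarith

theorem maxMod_le_of_sum {a : ℕ → ℂ} {r : ℝ} (hr : 0 ≤ r) {D : ℝ}
    (h : ∀ n : ℕ, ∑ k ∈ range n, ‖a k‖ * r ^ k ≤ D) : maxMod a r ≤ D := by
  have hs : Summable fun k => ‖a k‖ * r ^ k :=
    summable_of_sum_range_le (fun k => by positivity) h
  unfold maxMod
  apply csSup_le
  · refine ⟨_, ⟨(r : ℂ), ?_, rfl⟩⟩
    simp [abs_of_nonneg hr]
  · rintro _ ⟨z, hz, rfl⟩
    have hz' : ‖z‖ = r := by simpa using hz
    have h1 : ∀ k, ‖a k * z^k‖ = ‖a k‖ * r^k := by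
      intro k
      rw [norm_mul, norm_pow, hz']
    have h2 : Summable (fun k => ‖a k * z^k‖) := hs.congr (fun k => (h1 k).symm)
    calc ‖∑' k, a k * z^k‖ ≤ ∑' k, ‖a k * z^k‖ := norm_tsum_le_tsum_norm h2
      _ = ∑' k, ‖a k‖ * r ^ k := tsum_congr h1
      _ ≤ _ := hs.tsum_le_of_sum_range_le h

/-- A constant has order at most zero. -/
theorem order_const {a : ℕ → ℂ} (h : ∀ k, 1 ≤ k → a k = 0) : entireOrder a ≤ 0 := by
  have h1 : ∀ r : ℝ, 0 ≤ r → maxMod a r = ‖a 0‖ := by
    intro r hr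
    have h2 : ∀ z : ℂ, ∑' k, a k * z ^ k = a 0 := by
      intro z
      rw [tsum_eq_single 0]
      · rw [pow_zero, mul_one]
      · intro k hk
        rw [h k (Nat.one_le_iff_ne_zero.2 hk), zero_mul]
    unfold maxMod
    simp only [h2]
    rw [Set.Nonempty.image_const]
    · exact csSup_singleton _
    · refine ⟨(r : ℂ), ?_⟩
      simp [abs_of_nonneg hr]
  unfold entireOrder
  have h3 : Tendsto (fun r : ℝ => Real.log (Real.log (maxMod a r)) / Real.log r) atTop
      (nhds 0) := by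
    have h4 : Tendsto (fun r : ℝ => Real.log (Real.log ‖a 0‖) / Real.log r) atTop (nhds 0) :=
      Tendsto.div_atTop tendsto_const_nhds Real.tendsto_log_atTop
    refine h4.congr' ?_
    filter_upwards [eventually_ge_atTop 0] with r hr
    rw [h1 r hr]
  have h5 : Tendsto (fun r : ℝ => ((Real.log (Real.log (maxMod a r)) / Real.log r : ℝ) : EReal))
      atTop (nhds ((0 : ℝ) : EReal)) := (continuous_coe_real_ereal.tendsto 0).comp h3
  rw [h5.limsup_eq, EReal.coe_zero]

theorem order_le_of_vv {a : ℕ → ℂ} (hE : IsEntireSeries a) {s C : ℝ} (hs : 0 < s) (hC : 1 ≤ C)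
    (h : ∀ k, 1 ≤ k → vv a (1 / s) k ≤ C) : entireOrder a ≤ ((2 * s : ℝ) : EReal) := by
  by_cases hne : ∃ n, 1 ≤ n ∧ a n ≠ 0
  swap
  · push Not at hne
    refine (order_const hne).trans ?_
    rw [← EReal.coe_zero, EReal.coe_le_coe_iff]
    positivity
  obtain ⟨n, hn1, hn⟩ := hne
  have hnn : 0 < ‖a n‖ := norm_pos_iff.2 hn
  unfold entireOrder
  refine limsup_le_of_le (by isBoundedDefault) ?_
  -- asymptotics
  set D : ℝ := (2 * C) ^ s with hD
  have hD0 : 0 < D := by positivity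
  have hlogo := (isLittleO_log_rpow_atTop hs).def (show (0 : ℝ) < 1 / (2 * D) by positivity)
  have hbig : Tendsto (fun r : ℝ => r ^ s) atTop atTop := tendsto_rpow_atTop hs
  set E : ℝ := 2 * (‖a 0‖ + 3 + D + D * (1 + Real.log C)) with hEdef
  filter_upwards [hlogo, hbig.eventually_ge_atTop (max 1 E), eventually_ge_atTop (max 2 (1 / ‖a n‖))]
    with r hr1 hr2 hr3
  have hr : 2 ≤ r := (le_max_left _ _).trans hr3
  have hr0 : 0 < r := by linarith
  have hra : 1 / ‖a n‖ ≤ r := (le_max_right _ _).trans hr3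
  have hlr : 0 < Real.log r := Real.log_pos (by linarith)
  set y : ℝ := r ^ s with hy
  have hy1 : 1 ≤ y := (le_max_left _ _).trans hr2
  have hyE : E ≤ y := (le_max_right _ _).trans hr2
  rw [Real.norm_of_nonneg hlr.le, Real.norm_of_nonneg (by positivity)] at hr1
  rw [EReal.coe_le_coe_iff]
  have hM1 : 1 ≤ maxMod a r := by
    have h2 := G2.aux_coeff a hE r hr0 n
    have h3 : ‖a n‖ * r ≤ ‖a n‖ * r ^ n :=
      mul_le_mul_of_nonneg_left (le_self_pow₀ (by linarith) (by omega)) (norm_nonneg _)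
    have h4 : 1 ≤ ‖a n‖ * r := by
      rw [div_le_iff₀ hnn] at hra
      linarith
    linarith
  have hX : (2 * C * r) ^ s = D * y := by
    rw [hD, hy, Real.mul_rpow (by positivity) hr0.le]
  have hM2 : maxMod a r ≤ ‖a 0‖ + 2 + (D * y + 1) * (C * r) ^ (D * y) := by
    rw [← hX]
    exact maxMod_le_of_sum hr0.le (sum_le_of_vv hs hC h (by linarith))
  have hlogC : 0 ≤ Real.log C := Real.log_nonneg hC
  have hCr : 0 < C * r := by positivity
  have hpow : (C * r) ^ (D * y) = Real.exp ((Real.log C + Real.log r) * (D * y)) := by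
    rw [Real.rpow_def_of_pos hCr, Real.log_mul (by linarith) hr0.ne']
  have hM3 : maxMod a r ≤
      Real.exp (‖a 0‖ + 3 + D * y + (Real.log C + Real.log r) * (D * y)) := by
    refine hM2.trans ?_
    rw [hpow]
    set W := (Real.log C + Real.log r) * (D * y) with hW
    have hW0 : 0 ≤ W := by positivity
    have e1 : 1 ≤ Real.exp W := Real.one_le_exp hW0
    have e2 : D * y + 1 ≤ Real.exp (D * y) := Real.add_one_le_exp _
    have e3 : ‖a 0‖ + 3 + 1 ≤ Real.exp (‖a 0‖ + 3) := Real.add_one_le_exp _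
    have e4 : 1 ≤ Real.exp (D * y) := Real.one_le_exp (by positivity)
    have e5 : 1 ≤ Real.exp (D * y) * Real.exp W := by nlinarith
    rw [Real.exp_add, Real.exp_add (‖a 0‖ + 3), mul_assoc (Real.exp (‖a 0‖ + 3))]
    have e6 : (D * y + 1) * Real.exp W ≤ Real.exp (D * y) * Real.exp W :=
      mul_le_mul_of_nonneg_right e2 (by linarith)
    have e7 : ‖a 0‖ + 2 ≤ (‖a 0‖ + 2) * (Real.exp (D * y) * Real.exp W) :=
      le_mul_of_one_le_right (by positivity) e5
    have e8 : (‖a 0‖ + 3) * (Real.exp (D * y) * Real.exp W) ≤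
        Real.exp (‖a 0‖ + 3) * (Real.exp (D * y) * Real.exp W) :=
      mul_le_mul_of_nonneg_right (by linarith) (by linarith)
    nlinarith
  have hlog0 : 0 ≤ Real.log (maxMod a r) := Real.log_nonneg hM1
  have hlog : Real.log (maxMod a r) ≤ r ^ (2 * s) := by
    have e0 : r ^ (2 * s) = y * y := by
      rw [hy, ← Real.rpow_add hr0]
      congr 1
      ring
    rw [Real.log_le_iff_le_exp (by linarith), e0]
    refine hM3.trans (Real.exp_le_exp.2 ?_)
    have e1 : Real.log r * (D * y) ≤ y * y / 2 := by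
      calc Real.log r * (D * y) ≤ 1 / (2 * D) * y * (D * y) :=
            mul_le_mul_of_nonneg_right hr1 (by positivity)
        _ = y * y / 2 := by field_simp
    have e2 : ‖a 0‖ + 3 ≤ (‖a 0‖ + 3) * y := le_mul_of_one_le_right (by positivity) hy1
    have e3 : (‖a 0‖ + 3 + D + D * (1 + Real.log C)) * y ≤ y / 2 * y :=
      mul_le_mul_of_nonneg_right (by linarith) (by linarith)
    have e4 : 0 ≤ D * y := by positivity
    nlinarith
  rw [div_le_iff₀ hlr]
  rcases hlog0.eq_or_lt with h0 | h0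
  · rw [← h0, Real.log_zero]
    positivity
  · have h2 := Real.log_le_log h0 hlog
    rwa [Real.log_rpow (by linarith)] at h2

/-- The positive part: for an entire function of positive order there is an infinite set `M` of
indices such that all sections `p_m`, `m ∈ M` large, have zeros in every sector. -/
theorem positive_part {a : ℕ → ℂ} (hE : IsEntireSeries a) (ho : 0 < entireOrder a) :
    ∃ M : Set ℕ, M.Infinite ∧ (∀ m ∈ M, 1 ≤ m) ∧ ∀ K x₀ : ℝ, 0 < K →
      ∃ m₀ : ℕ, ∀ n ∈ M, m₀ ≤ n → ∀ θ : ℝ, ∃ w : ℂ, x₀ ≤ w.re ∧ |w.im| ≤ K * w.re ∧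
        ∑ k ∈ range (n + 1), a k * (Complex.exp ((θ : ℂ) * Complex.I) * w) ^ k = 0 := by
  obtain ⟨l, hl0, hl⟩ := EReal.lt_iff_exists_real_btwn.1 ho
  rw [← EReal.coe_zero, EReal.coe_lt_coe_iff] at hl0
  have hunb : ∀ C : ℝ, ∃ k, 1 ≤ k ∧ C < vv a (1 / (l / 2)) k := by
    intro C
    by_contra hcon
    push Not at hcon
    have h1 := order_le_of_vv hE (s := l / 2) (C := max C 1) (by positivity) (le_max_right _ _)
      (fun k hk => (hcon k hk).trans (le_max_left _ _))
    have h2 : 2 * (l / 2) = l := by ring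
    rw [h2] at h1
    exact absurd hl (not_lt.2 h1)
  refine ⟨records a (1 / (l / 2)), records_infinite hunb, fun m hm => hm.1, ?_⟩
  intro K x₀ hK
  exact records_zero hE (by positivity) hK x₀

end Pool.Agent.Y607.SV
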