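import Mathlib

/-!
# Propagation of smallness for bounded analytic functions
-/

set_option autoImplicit false

open Finset Metric

namespace Pool.Agent.Y607.SV

/-- Taylor coefficients of a bounded function. -/
theorem coeff_le {f : ℂ → ℂ} {c : ℂ} {r M ρ : ℝ} (hf : DifferentiableOn ℂ f (ball c r))
    (hρ : 0 < ρ) (hρr : ρ < r) (hM : ∀ z, ‖z - c‖ ≤ ρ → ‖f z‖ ≤ M) (k : ℕ) :
    ‖((k.factorial : ℂ))⁻¹ * iteratedDeriv k f c‖ ≤ M / ρ ^ k := by
  have h1 : DiffContOnCl ℂ f (ball c ρ) := by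
    apply DifferentiableOn.diffContOnCl
    rw [closure_ball c hρ.ne']
    exact hf.mono (closedBall_subset_ball hρr)
  have h2 := Complex.norm_iteratedDeriv_le_of_forall_mem_sphere_norm_le (C := M) k hρ h1
    fun z hz => hM z (by rw [mem_sphere_iff_norm] at hz; exact hz.le)
  have h3 : (0 : ℝ) < (k.factorial : ℝ) := by exact_mod_cast k.factorial_pos
  rw [norm_mul, norm_inv, Complex.norm_natCast]
  calc (k.factorial : ℝ)⁻¹ * ‖iteratedDeriv k f c‖
      ≤ (k.factorial : ℝ)⁻¹ * (k.factorial * M / ρ ^ k) :=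
        mul_le_mul_of_nonneg_left h2 (by positivity)
    _ = M / ρ ^ k := by field_simp

/-- A bounded analytic function which is very small on a ball is small on a larger one. -/
theorem step {M τ : ℝ} (hM : 0 < M) (hτ : 0 < τ) : ∃ η : ℝ, 0 < η ∧
    ∀ (f : ℂ → ℂ) (c : ℂ) (r : ℝ), 0 < r → DifferentiableOn ℂ f (ball c r) →
      (∀ z, ‖z - c‖ < r → ‖f z‖ ≤ M) → (∀ z, ‖z - c‖ < r / 4 → ‖f z‖ ≤ η) →
      ∀ z, ‖z - c‖ ≤ 3 / 8 * r → ‖f z‖ ≤ τ := by
  obtain ⟨N, hN⟩ : ∃ N : ℕ, M * 2 * (1 / 2) ^ N ≤ τ / 2 := by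
    have h1 : Filter.Tendsto (fun N : ℕ => M * 2 * (1 / 2 : ℝ) ^ N) Filter.atTop
        (nhds (M * 2 * 0)) :=
      (tendsto_pow_atTop_nhds_zero_of_lt_one (by norm_num) (by norm_num)).const_mul _
    rw [mul_zero] at h1
    exact ((h1.eventually (ge_mem_nhds (show (0 : ℝ) < τ / 2 by linarith)))).exists
  refine ⟨τ / 2 / 2 ^ N, by positivity, ?_⟩
  intro f c r hr hf hfM hfη z hz
  have hz' : z ∈ ball c r := by
    rw [mem_ball_iff_norm]
    linarith
  have hs := Complex.hasSum_taylorSeries_on_ball hf hz'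
  set η := τ / 2 / 2 ^ N with hη
  have a1 : ∀ k : ℕ, ‖((k.factorial : ℂ))⁻¹ * iteratedDeriv k f c‖ ≤ M / (3 / 4 * r) ^ k :=
    coeff_le hf (by linarith) (by linarith) fun w hw => hfM w (by linarith)
  have a2 : ∀ k : ℕ, ‖((k.factorial : ℂ))⁻¹ * iteratedDeriv k f c‖ ≤ η / (3 / 16 * r) ^ k :=
    coeff_le hf (by linarith) (by linarith) fun w hw => hfη w (by linarith)
  have hterm : ∀ k : ℕ, ‖((k.factorial : ℂ))⁻¹ • (z - c) ^ k • iteratedDeriv k f c‖ ≤
      (if k < N then η * 2 ^ k else M * (1 / 2) ^ k) := by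
    intro k
    have e1 : ‖((k.factorial : ℂ))⁻¹ • (z - c) ^ k • iteratedDeriv k f c‖ =
        ‖((k.factorial : ℂ))⁻¹ * iteratedDeriv k f c‖ * ‖z - c‖ ^ k := by
      rw [smul_eq_mul, smul_eq_mul, norm_mul, norm_mul, norm_mul, norm_pow]
      ring
    rw [e1]
    have e2 : ‖z - c‖ ^ k ≤ (3 / 8 * r) ^ k := pow_le_pow_left₀ (norm_nonneg _) hz k
    split_ifs with hk
    · calc _ ≤ η / (3 / 16 * r) ^ k * (3 / 8 * r) ^ k :=
            mul_le_mul (a2 k) e2 (by positivity) (by positivity)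
        _ = η * 2 ^ k := by
            have hne : (3 / 16 * r) ^ k ≠ 0 := by positivity
            rw [show 3 / 8 * r = 3 / 16 * r * 2 by ring, mul_pow (3 / 16 * r) 2 k, ← mul_assoc,
              div_mul_cancel₀ _ hne]
    · calc _ ≤ M / (3 / 4 * r) ^ k * (3 / 8 * r) ^ k :=
            mul_le_mul (a1 k) e2 (by positivity) (by positivity)
        _ = M * (1 / 2) ^ k := by
            have hne : (3 / 4 * r) ^ k ≠ 0 := by positivity
            rw [show 3 / 8 * r = 3 / 4 * r * (1 / 2) by ring, mul_pow (3 / 4 * r) (1 / 2) k,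
              ← mul_assoc, div_mul_cancel₀ _ hne]
  have hg : Summable fun k : ℕ => (if k < N then η * 2 ^ k else M * (1 / 2 : ℝ) ^ k) := by
    rw [← summable_nat_add_iff N]
    have : (fun k : ℕ => (if k + N < N then η * 2 ^ (k + N) else M * (1 / 2 : ℝ) ^ (k + N))) =
        fun k : ℕ => M * (1 / 2) ^ N * (1 / 2 : ℝ) ^ k := by
      funext k
      rw [if_neg (by omega), pow_add]
      ring
    rw [this]
    exact (summable_geometric_of_lt_one (by norm_num) (by norm_num)).mul_left _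
  have h1 := hs.norm_le_of_bounded hg.hasSum hterm
  refine h1.trans ?_
  rw [← hg.sum_add_tsum_nat_add N]
  have t1 : ∑ k ∈ range N, (if k < N then η * 2 ^ k else M * (1 / 2 : ℝ) ^ k) ≤ τ / 2 := by
    have : ∑ k ∈ range N, (if k < N then η * 2 ^ k else M * (1 / 2 : ℝ) ^ k) =
        η * ∑ k ∈ range N, 2 ^ k := by
      rw [mul_sum]
      refine sum_congr rfl fun k hk => ?_
      rw [if_pos (mem_range.1 hk)]
    rw [this]
    have g : ∑ k ∈ range N, (2 : ℝ) ^ k ≤ 2 ^ N := by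
      rw [geom_sum_eq (by norm_num)]
      have : (1 : ℝ) ≤ 2 ^ N := one_le_pow₀ (by norm_num)
      rw [div_le_iff₀ (by norm_num)]
      linarith
    calc η * ∑ k ∈ range N, (2 : ℝ) ^ k ≤ η * 2 ^ N := mul_le_mul_of_nonneg_left g (by positivity)
      _ = τ / 2 := by rw [hη]; field_simp
  have t2 : ∑' k : ℕ, (if k + N < N then η * 2 ^ (k + N) else M * (1 / 2 : ℝ) ^ (k + N)) ≤
      τ / 2 := by
    have : (fun k : ℕ => (if k + N < N then η * 2 ^ (k + N) else M * (1 / 2 : ℝ) ^ (k + N))) =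
        fun k : ℕ => M * (1 / 2) ^ N * (1 / 2 : ℝ) ^ k := by
      funext k
      rw [if_neg (by omega), pow_add]
      ring
    rw [this, tsum_mul_left, tsum_geometric_of_lt_one (by norm_num) (by norm_num)]
    calc M * (1 / 2) ^ N * (1 - 1 / 2)⁻¹ = M * 2 * (1 / 2) ^ N := by norm_num; ring
      _ ≤ τ / 2 := hN
  linarith

/-- Propagation along the real axis, with balls of radius proportional to the centre. -/
theorem chain {κ R M : ℝ} (hκ : 0 < κ) (hκ1 : κ ≤ 1 / 2) (hM : 0 < M) {τ : ℝ} (hτ : 0 < τ) :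
    ∃ η : ℝ, 0 < η ∧ ∀ f : ℂ → ℂ,
      (∀ x : ℝ, 1 / 6 ≤ x → x ≤ R → DifferentiableOn ℂ f (ball (x : ℂ) (κ * x))) →
      (∀ x : ℝ, 1 / 6 ≤ x → x ≤ R → ∀ z, ‖z - (x : ℂ)‖ < κ * x → ‖f z‖ ≤ M) →
      (∀ z, ‖z - ((1 / 6 : ℝ) : ℂ)‖ < κ * (1 / 6) / 4 → ‖f z‖ ≤ η) →
      ∀ x : ℝ, 1 / 6 ≤ x → x ≤ R → ∀ z, ‖z - (x : ℂ)‖ < κ * x / 4 → ‖f z‖ ≤ τ := by
  set q : ℝ := 1 + κ / 16 with hq
  have hq1 : 1 < q := by rw [hq]; linarith
  have key : ∀ j : ℕ, ∀ τ : ℝ, 0 < τ → ∃ η : ℝ, 0 < η ∧ ∀ f : ℂ → ℂ,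
      (∀ x : ℝ, 1 / 6 ≤ x → x ≤ R → DifferentiableOn ℂ f (ball (x : ℂ) (κ * x))) →
      (∀ x : ℝ, 1 / 6 ≤ x → x ≤ R → ∀ z, ‖z - (x : ℂ)‖ < κ * x → ‖f z‖ ≤ M) →
      (∀ z, ‖z - ((1 / 6 : ℝ) : ℂ)‖ < κ * (1 / 6) / 4 → ‖f z‖ ≤ η) →
      ∀ x : ℝ, 1 / 6 ≤ x → x ≤ R → x ≤ 1 / 6 * q ^ j →
        ∀ z, ‖z - (x : ℂ)‖ < κ * x / 4 → ‖f z‖ ≤ τ := by
    intro j
    induction j with
    | zero =>
      intro τ hτ
      refine ⟨τ, hτ, fun f _ _ h3 x hx _ hx2 z hz => ?_⟩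
      have : x = 1 / 6 := by
        rw [pow_zero, mul_one] at hx2
        linarith
      rw [this] at hz
      exact h3 z hz
    | succ j ih =>
      intro τ hτ
      obtain ⟨η1, hη1, hst⟩ := step hM hτ
      obtain ⟨η2, hη2, hih⟩ := ih (min η1 τ) (lt_min hη1 hτ)
      refine ⟨η2, hη2, fun f h1 h2 h3 x hx hxR hxj z hz => ?_⟩
      have h4 := hih f h1 h2 h3
      obtain ⟨c, hc⟩ : ∃ c : ℝ, c = max (1 / 6) (x / q) := ⟨_, rfl⟩
      have hc1 : 1 / 6 ≤ c := by rw [hc]; exact le_max_left _ _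
      have hcx : c ≤ x := by
        rw [hc]
        refine max_le hx ?_
        rw [div_le_iff₀ (by linarith)]
        nlinarith
      have hxc : x ≤ q * c := by
        have : x / q ≤ c := by rw [hc]; exact le_max_right _ _
        rw [div_le_iff₀ (by linarith)] at this
        linarith
      have hcj : c ≤ 1 / 6 * q ^ j := by
        rw [hc]
        refine max_le ?_ ?_
        · have : (1 : ℝ) ≤ q ^ j := one_le_pow₀ hq1.le
          linarith
        · rw [div_le_iff₀ (by linarith)]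
          rw [pow_succ] at hxj
          linarith
      have hc0 : 0 < c := by linarith
      have h5 := hst f (c : ℂ) (κ * c) (by positivity) (h1 c hc1 (hcx.trans hxR))
        (h2 c hc1 (hcx.trans hxR)) (fun w hw =>
          (h4 c hc1 (hcx.trans hxR) hcj w hw).trans (min_le_left _ _))
      apply h5
      have h6 : ‖z - (c : ℂ)‖ ≤ ‖z - (x : ℂ)‖ + (x - c) := by
        calc ‖z - (c : ℂ)‖ = ‖(z - (x : ℂ)) + ((x - c : ℝ) : ℂ)‖ := by
              congr 1; push_cast; ring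
          _ ≤ ‖z - (x : ℂ)‖ + ‖((x - c : ℝ) : ℂ)‖ := norm_add_le _ _
          _ = ‖z - (x : ℂ)‖ + (x - c) := by
              rw [Complex.norm_real, Real.norm_of_nonneg (by linarith)]
      have h7 : x - c ≤ κ / 16 * c := by
        rw [hq] at hxc
        linarith
      have h8 : κ * x / 4 ≤ κ * c / 4 + κ * κ / 64 * c := by
        rw [hq] at hxc
        nlinarith
      have h9 : κ * κ / 64 * c ≤ κ / 128 * c := by
        have : κ * κ ≤ κ * (1 / 2) := by nlinarith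
        nlinarith
      nlinarith
  obtain ⟨j, hj⟩ : ∃ j : ℕ, R ≤ 1 / 6 * q ^ j := by
    obtain ⟨j, hj⟩ := pow_unbounded_of_one_lt (6 * R) hq1
    exact ⟨j, by linarith⟩
  obtain ⟨η, hη, h⟩ := key j τ hτ
  exact ⟨η, hη, fun f h1 h2 h3 x hx hxR => h f h1 h2 h3 x hx hxR (hxR.trans hj)⟩

end Pool.Agent.Y607.SV
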