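import Pool.Agent.Y607.SV.Poly

/-!
# Jensen's inequality for a polynomial small on an arc, and the root theorem
-/

set_option autoImplicit false

open Finset Metric Polynomial

namespace Pool.Agent.Y607.SV

theorem log_norm_le {z : ℂ} {c : ℝ} (hc : 0 ≤ c) (h : ‖z‖ ≤ Real.exp c) : Real.log ‖z‖ ≤ c := by
  rcases eq_or_ne z 0 with h0 | h0
  · rw [h0, norm_zero, Real.log_zero]
    exact hc
  · have := Real.log_le_log (norm_pos_iff.2 h0) h
    rwa [Real.log_exp] at this

/-- Jensen's inequality for a polynomial with small coefficients which is small on an arc. -/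
theorem mahler_arc {B : ℂ[X]} (hB0 : B ≠ 0) {n : ℕ} (hdeg : B.natDegree ≤ n)
    (hB : ∀ j, ‖B.coeff j‖ ≤ 1) {R α : ℝ} (hR : 1 ≤ R) (hα : 0 ≤ α) (hα2 : α ≤ 2 * Real.pi)
    (hs : ∀ φ : ℝ, 0 ≤ φ → φ ≤ α → ‖B.eval ((R : ℂ) * Complex.exp (φ * Complex.I))‖ ≤ Real.exp n) :
    Real.log ‖B.leadingCoeff‖ + B.natDegree * Real.log R ≤
      α / (2 * Real.pi) * n +
        (1 - α / (2 * Real.pi)) * (n * Real.log R + Real.log (n + 1)) := by
  have hpi := Real.pi_pos
  have hR0 : (0 : ℝ) < R := by linarith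
  have hRc : (R : ℂ) ≠ 0 := by exact_mod_cast hR0.ne'
  have hlR : 0 ≤ Real.log R := Real.log_nonneg hR
  have hln : 0 ≤ Real.log ((n : ℝ) + 1) := Real.log_nonneg (by
    have : (0 : ℝ) ≤ n := Nat.cast_nonneg n
    linarith)
  set p : ℂ[X] := B.comp (C (R : ℂ) * X) with hp
  have hd1 : (C (R : ℂ) * X : ℂ[X]).natDegree = 1 := natDegree_C_mul_X _ hRc
  have hlc : p.leadingCoeff = B.leadingCoeff * (R : ℂ) ^ B.natDegree := by
    rw [hp, leadingCoeff_comp (by rw [hd1]; exact one_ne_zero), leadingCoeff_mul, leadingCoeff_C,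
      leadingCoeff_X, mul_one]
  have hlB : B.leadingCoeff ≠ 0 := leadingCoeff_ne_zero.2 hB0
  have hlp : p.leadingCoeff ≠ 0 := by
    rw [hlc]
    exact mul_ne_zero hlB (pow_ne_zero _ hRc)
  have hp0 : p ≠ 0 := leadingCoeff_ne_zero.1 hlp
  have h1 : Real.log ‖p.leadingCoeff‖ =
      Real.log ‖B.leadingCoeff‖ + B.natDegree * Real.log R := by
    rw [hlc, norm_mul, norm_pow, Complex.norm_real, Real.norm_of_nonneg hR0.le,
      Real.log_mul (norm_ne_zero_iff.2 hlB) (pow_ne_zero _ hR0.ne'), Real.log_pow]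
  have h2 := leadingCoeff_le_mahlerMeasure p
  rw [mahlerMeasure_def_of_ne_zero hp0] at h2
  have h3 := Real.log_le_log (norm_pos_iff.2 hlp) h2
  rw [Real.log_exp, h1] at h3
  refine h3.trans ?_
  have hint := intervalIntegrable_mahlerMeasure (p := p)
  have hi1 : IntervalIntegrable (fun x : ℝ => Real.log ‖p.eval (circleMap 0 1 x)‖)
      MeasureTheory.volume 0 α := hint.mono_set (by
        rw [Set.uIcc_of_le hα, Set.uIcc_of_le (by positivity)]
        exact Set.Icc_subset_Icc_right hα2)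
  have hi2 : IntervalIntegrable (fun x : ℝ => Real.log ‖p.eval (circleMap 0 1 x)‖)
      MeasureTheory.volume α (2 * Real.pi) := hint.mono_set (by
        rw [Set.uIcc_of_le hα2, Set.uIcc_of_le (by positivity)]
        exact Set.Icc_subset_Icc_left hα)
  have hev : ∀ x : ℝ, p.eval (circleMap 0 1 x) =
      B.eval ((R : ℂ) * Complex.exp (x * Complex.I)) := by
    intro x
    rw [hp, eval_comp, eval_mul, eval_C, eval_X]
    congr 2
    simp [circleMap]
  have hb1 : ∫ x in (0 : ℝ)..α, Real.log ‖p.eval (circleMap 0 1 x)‖ ≤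
      ∫ _x in (0 : ℝ)..α, (n : ℝ) := by
    apply intervalIntegral.integral_mono_on hα hi1 (by simp)
    intro x hx
    rw [hev]
    exact log_norm_le (Nat.cast_nonneg n) (hs x hx.1 hx.2)
  have hb2 : ∫ x in α..(2 * Real.pi), Real.log ‖p.eval (circleMap 0 1 x)‖ ≤
      ∫ _x in α..(2 * Real.pi), (n * Real.log R + Real.log (n + 1)) := by
    apply intervalIntegral.integral_mono_on hα2 hi2 (by simp)
    intro x hx
    rw [hev]
    apply log_norm_le (by positivity)
    rw [Real.exp_add, mul_comm (n : ℝ) (Real.log R), Real.exp_mul, Real.exp_log hR0,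
      Real.exp_log (by positivity), Real.rpow_natCast]
    rw [eval_eq_sum_range]
    have hz : ‖(R : ℂ) * Complex.exp (x * Complex.I)‖ = R := by
      rw [norm_mul, Complex.norm_exp_ofReal_mul_I, mul_one, Complex.norm_real,
        Real.norm_of_nonneg hR0.le]
    calc ‖∑ k ∈ range (B.natDegree + 1), B.coeff k * ((R : ℂ) * Complex.exp (x * Complex.I)) ^ k‖
        ≤ ∑ k ∈ range (B.natDegree + 1),
            ‖B.coeff k * ((R : ℂ) * Complex.exp (x * Complex.I)) ^ k‖ := norm_sum_le _ _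
      _ ≤ ∑ k ∈ range (B.natDegree + 1), R ^ n := by
          refine sum_le_sum fun k hk => ?_
          rw [norm_mul, norm_pow, hz]
          have hk' : k ≤ n := by
            have := mem_range.1 hk
            omega
          calc ‖B.coeff k‖ * R ^ k ≤ 1 * R ^ n :=
                mul_le_mul (hB k) (pow_le_pow_right₀ hR hk') (by positivity) zero_le_one
            _ = R ^ n := one_mul _
      _ = ((B.natDegree + 1 : ℕ) : ℝ) * R ^ n := by rw [sum_const, card_range, nsmul_eq_mul]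
      _ ≤ (n + 1) * R ^ n := by
          refine mul_le_mul_of_nonneg_right ?_ (by positivity)
          exact_mod_cast Nat.succ_le_succ hdeg
      _ = R ^ n * (n + 1) := mul_comm _ _
  have hb3 : ∫ x in (0 : ℝ)..(2 * Real.pi), Real.log ‖p.eval (circleMap 0 1 x)‖ ≤
      α * n + (2 * Real.pi - α) * (n * Real.log R + Real.log (n + 1)) := by
    rw [← intervalIntegral.integral_add_adjacent_intervals hi1 hi2]
    rw [intervalIntegral.integral_const, smul_eq_mul, sub_zero] at hb1
    rw [intervalIntegral.integral_const, smul_eq_mul] at hb2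
    exact add_le_add hb1 hb2
  calc (2 * Real.pi)⁻¹ * ∫ x in (0 : ℝ)..(2 * Real.pi), Real.log ‖p.eval (circleMap 0 1 x)‖
      ≤ (2 * Real.pi)⁻¹ * (α * n + (2 * Real.pi - α) * (n * Real.log R + Real.log (n + 1))) :=
        mul_le_mul_of_nonneg_left hb3 (by positivity)
    _ = _ := by
        field_simp

/-- A polynomial of degree at least `n - q` with coefficients at most one, constant coefficient one
and leading coefficient at least `exp (-β n - C₀)` has a zero in a fixed part of a sector. -/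
theorem exists_root {κ β C₀ : ℝ} (hκ : 0 < κ) (hκ1 : κ ≤ 1 / 4) (hβ : 0 ≤ β) (q : ℕ) :
    ∃ R : ℝ, 1 ≤ R ∧ ∃ n₀ : ℕ, ∀ n ≥ n₀, ∀ B : ℂ[X], B.natDegree ≤ n → n ≤ B.natDegree + q →
      B.coeff 0 = 1 → (∀ j, ‖B.coeff j‖ ≤ 1) →
      Real.exp (-(β * n) - C₀) ≤ ‖B.leadingCoeff‖ →
      ∃ x : ℝ, 0 < x ∧ x ≤ R ∧ ∃ z, ‖z - (x : ℂ)‖ < 2 * κ * x ∧ B.eval z = 0 := by
  have hpi := Real.pi_pos
  have hpi3 := Real.pi_gt_three
  set c : ℝ := κ / 8 / (2 * Real.pi) with hc
  have hc0 : 0 < c := by positivity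
  have hc1 : c ≤ 1 := by
    rw [hc, div_le_one (by positivity)]
    linarith
  set R : ℝ := Real.exp ((β + 3) / c) with hRdef
  have hR : 1 ≤ R := Real.one_le_exp (by positivity)
  have hlR : Real.log R = (β + 3) / c := Real.log_exp _
  obtain ⟨n₁, hn₁⟩ := sector_small hκ hκ1 hR
  obtain ⟨n₂, hn₂⟩ := exists_nat_gt (C₀ + q * ((β + 3) / c))
  refine ⟨R, hR, max n₁ n₂, ?_⟩
  intro n hn B hdeg hdeg2 h0 hB hlead
  by_contra hcon
  push Not at hcon
  have hB0 : B ≠ 0 := by
    rintro rfl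
    rw [coeff_zero] at h0
    exact zero_ne_one h0
  have hsm := hn₁ n ((le_max_left _ _).trans hn) B hdeg h0 hB
    (fun x hx hxR z hz => hcon x hx hxR z hz)
  have h1 := mahler_arc hB0 hdeg hB hR (α := κ / 8) (by positivity) (by linarith) (by
    intro φ hφ hφ2
    apply hsm
    have e : (R : ℂ) * Complex.exp (φ * Complex.I) - (R : ℂ) =
        (R : ℂ) * (Complex.exp (Complex.I * φ) - 1) := by
      rw [mul_comm (φ : ℂ) Complex.I]
      ring
    have h2 : ‖Complex.exp (Complex.I * φ) - 1‖ ≤ ‖φ‖ := Real.norm_exp_I_mul_ofReal_sub_one_le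
    rw [Real.norm_of_nonneg hφ] at h2
    rw [e, norm_mul, Complex.norm_real, Real.norm_of_nonneg (by linarith)]
    calc R * ‖Complex.exp (Complex.I * φ) - 1‖ ≤ R * (κ / 8) :=
          mul_le_mul_of_nonneg_left (h2.trans hφ2) (by linarith)
      _ < κ * R / 4 := by nlinarith)
  rw [← hc, hlR] at h1
  have h3 : -(β * n) - C₀ ≤ Real.log ‖B.leadingCoeff‖ := by
    have := Real.log_le_log (Real.exp_pos _) hlead
    rwa [Real.log_exp] at this
  have h4 : (n : ℝ) ≤ B.natDegree + q := by exact_mod_cast hdeg2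
  have h5 : Real.log ((n : ℝ) + 1) ≤ n := by
    have := Real.log_le_sub_one_of_pos (show (0 : ℝ) < (n : ℝ) + 1 by positivity)
    linarith
  have h6 : C₀ + q * ((β + 3) / c) < n :=
    hn₂.trans_le (by exact_mod_cast (le_max_right _ _).trans hn)
  have hn0 : (0 : ℝ) ≤ n := Nat.cast_nonneg n
  have h7 : 0 ≤ (β + 3) / c := by positivity
  have h8 : (n : ℝ) * ((β + 3) / c) ≤ (B.natDegree + q) * ((β + 3) / c) :=
    mul_le_mul_of_nonneg_right h4 h7
  have h9 : (1 - c) * (n * ((β + 3) / c) + Real.log (n + 1)) =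
      n * ((β + 3) / c) - n * (β + 3) + (1 - c) * Real.log (n + 1) := by
    field_simp
  rw [h9] at h1
  have h10 : (1 - c) * Real.log ((n : ℝ) + 1) ≤ n := by
    have h11 : 0 ≤ Real.log ((n : ℝ) + 1) := Real.log_nonneg (by linarith)
    calc (1 - c) * Real.log ((n : ℝ) + 1) ≤ 1 * Real.log ((n : ℝ) + 1) :=
          mul_le_mul_of_nonneg_right (by linarith) h11
      _ ≤ n := by rw [one_mul]; exact h5
  have h12 : c * n ≤ n := mul_le_of_le_one_left hn0 hc1
  nlinarith

end Pool.Agent.Y607.SV
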