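import Pool.Agent.Y607.SV.Chain

/-!
# Polynomials without zeros in a sector
-/

set_option autoImplicit false

open Finset Metric Polynomial

namespace Pool.Agent.Y607.SV

/-- The logarithmic derivative at a point at distance at least `κ x` from all the roots. -/
theorem logDeriv_le {B : ℂ[X]} {n : ℕ} (hn : B.natDegree ≤ n) {κ x : ℝ} (hκ : 0 < κ) (hx : 0 < x)
    (hκ1 : κ ≤ 1 / 2) (hroot : ∀ z, ‖z - (x : ℂ)‖ < 2 * κ * x → B.eval z ≠ 0) {w : ℂ}
    (hw : ‖w - (x : ℂ)‖ < κ * x) :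
    ‖w * B.derivative.eval w / B.eval w‖ ≤ n * (2 / κ) := by
  have hBw : B.eval w ≠ 0 := hroot w (by nlinarith)
  have h1 := (IsAlgClosed.splits B).eval_derivative_div_eval_of_ne_zero hBw
  rw [mul_div_assoc, norm_mul, h1]
  have hw2 : ‖w‖ ≤ 2 * x := by
    calc ‖w‖ = ‖(w - (x : ℂ)) + (x : ℂ)‖ := by congr 1; ring
      _ ≤ ‖w - (x : ℂ)‖ + ‖(x : ℂ)‖ := norm_add_le _ _
      _ ≤ κ * x + x := by
          rw [Complex.norm_real, Real.norm_of_nonneg hx.le]
          linarith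
      _ ≤ 2 * x := by nlinarith
  have h2 : ∀ ω ∈ B.roots, ‖1 / (w - ω)‖ ≤ 1 / (κ * x) := by
    intro ω hω
    have h3 : B.eval ω = 0 := by
      have := (mem_roots'.1 hω).2
      exact this
    have h4 : 2 * κ * x ≤ ‖ω - (x : ℂ)‖ := by
      by_contra hcon
      exact hroot ω (not_le.1 hcon) h3
    have h5 : κ * x ≤ ‖w - ω‖ := by
      have : ‖ω - (x : ℂ)‖ ≤ ‖w - (x : ℂ)‖ + ‖w - ω‖ := by
        calc ‖ω - (x : ℂ)‖ = ‖(w - (x : ℂ)) - (w - ω)‖ := by congr 1; ring
          _ ≤ _ := norm_sub_le _ _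
      linarith
    rw [norm_div, norm_one]
    exact one_div_le_one_div_of_le (by positivity) h5
  have h6 : ‖(B.roots.map fun z => 1 / (w - z)).sum‖ ≤ n * (1 / (κ * x)) := by
    have h7 : ‖(B.roots.map fun z => 1 / (w - z)).sum‖ ≤
        (B.roots.map fun z => ‖1 / (w - z)‖).sum := by
      have := norm_multiset_sum_le (B.roots.map fun z => 1 / (w - z))
      rw [Multiset.map_map] at this
      exact this
    have h8 : (B.roots.map fun z => ‖1 / (w - z)‖).sum ≤
        (Multiset.card (B.roots.map fun z => ‖1 / (w - z)‖)) • (1 / (κ * x)) := by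
      apply Multiset.sum_le_card_nsmul
      intro y hy
      rw [Multiset.mem_map] at hy
      obtain ⟨z, hz, rfl⟩ := hy
      exact h2 z hz
    rw [Multiset.card_map, nsmul_eq_mul] at h8
    have h9 : (Multiset.card B.roots : ℝ) ≤ n := by
      exact_mod_cast (card_roots' B).trans hn
    refine h7.trans (h8.trans ?_)
    exact mul_le_mul_of_nonneg_right h9 (by positivity)
  calc ‖w‖ * ‖(B.roots.map fun z => 1 / (w - z)).sum‖ ≤ 2 * x * (n * (1 / (κ * x))) :=
        mul_le_mul hw2 h6 (norm_nonneg _) (by positivity)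
    _ = n * (2 / κ) := by field_simp

/-- Values near the origin. -/
theorem eval_small {B : ℂ[X]} (h0 : B.coeff 0 = 1) (hB : ∀ j, ‖B.coeff j‖ ≤ 1) {w : ℂ}
    (hw : ‖w‖ ≤ 1 / 3) : 1 / 2 ≤ ‖B.eval w‖ ∧ ‖B.eval w‖ ≤ 3 / 2 ∧ ‖B.derivative.eval w‖ ≤ 3 := by
  have key : ‖B.eval w - 1‖ ≤ 1 / 2 := by
    rw [eval_eq_sum_range, sum_range_succ', h0, pow_zero, mul_one, add_sub_cancel_right]
    calc ‖∑ k ∈ range B.natDegree, B.coeff (k + 1) * w ^ (k + 1)‖
        ≤ ∑ k ∈ range B.natDegree, ‖B.coeff (k + 1) * w ^ (k + 1)‖ := norm_sum_le _ _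
      _ ≤ ∑ k ∈ range B.natDegree, (1 / 3 : ℝ) * (1 / 3) ^ k := by
          refine sum_le_sum fun k _ => ?_
          rw [norm_mul, norm_pow]
          calc ‖B.coeff (k + 1)‖ * ‖w‖ ^ (k + 1) ≤ 1 * (1 / 3) ^ (k + 1) :=
                mul_le_mul (hB _) (pow_le_pow_left₀ (norm_nonneg _) hw _) (by positivity)
                  zero_le_one
            _ = 1 / 3 * (1 / 3) ^ k := by rw [pow_succ]; ring
      _ = 1 / 3 * ∑ k ∈ range B.natDegree, (1 / 3 : ℝ) ^ k := by rw [mul_sum]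
      _ ≤ 1 / 3 * (3 / 2) := by
          refine mul_le_mul_of_nonneg_left ?_ (by norm_num)
          have := (summable_geometric_of_lt_one (r := (1 / 3 : ℝ)) (by norm_num)
            (by norm_num)).sum_le_tsum (range B.natDegree) fun k _ => by positivity
          rw [tsum_geometric_of_lt_one (by norm_num) (by norm_num)] at this
          norm_num at this ⊢
          exact this
      _ = 1 / 2 := by norm_num
  refine ⟨?_, ?_, ?_⟩
  · have h1 : ‖(1 : ℂ)‖ ≤ ‖B.eval w‖ + ‖B.eval w - 1‖ := by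
      calc ‖(1 : ℂ)‖ = ‖B.eval w - (B.eval w - 1)‖ := by congr 1; ring
        _ ≤ _ := norm_sub_le _ _
    rw [norm_one] at h1
    linarith
  · have h1 : ‖B.eval w‖ ≤ ‖(1 : ℂ)‖ + ‖B.eval w - 1‖ := by
      calc ‖B.eval w‖ = ‖1 + (B.eval w - 1)‖ := by congr 1; ring
        _ ≤ _ := norm_add_le _ _
    rw [norm_one] at h1
    linarith
  · rw [eval_eq_sum_range]
    calc ‖∑ k ∈ range (B.derivative.natDegree + 1), B.derivative.coeff k * w ^ k‖
        ≤ ∑ k ∈ range (B.derivative.natDegree + 1), ‖B.derivative.coeff k * w ^ k‖ :=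
          norm_sum_le _ _
      _ ≤ ∑ k ∈ range (B.derivative.natDegree + 1), (2 / 3 : ℝ) ^ k := by
          refine sum_le_sum fun k _ => ?_
          rw [norm_mul, norm_pow, coeff_derivative, norm_mul]
          have e1 : ‖((k : ℂ) + 1)‖ ≤ 2 ^ k := by
            have h1 : ((k : ℂ) + 1) = ((k + 1 : ℕ) : ℂ) := by push_cast; rfl
            rw [h1, Complex.norm_natCast]
            exact_mod_cast Nat.lt_two_pow_self
          calc ‖B.coeff (k + 1)‖ * ‖((k : ℂ) + 1)‖ * ‖w‖ ^ k ≤ 1 * 2 ^ k * (1 / 3) ^ k :=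
                mul_le_mul (mul_le_mul (hB _) e1 (norm_nonneg _) zero_le_one)
                  (pow_le_pow_left₀ (norm_nonneg _) hw _) (by positivity) (by positivity)
            _ = (2 / 3) ^ k := by rw [one_mul, ← mul_pow]; norm_num
      _ ≤ 3 := by
          have := (summable_geometric_of_lt_one (r := (2 / 3 : ℝ)) (by norm_num)
            (by norm_num)).sum_le_tsum (range (B.derivative.natDegree + 1))
            fun k _ => by positivity
          rw [tsum_geometric_of_lt_one (by norm_num) (by norm_num)] at this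
          norm_num at this ⊢
          exact this

/-- Growth along a segment. -/
theorem growth_segment {B : ℂ[X]} {K : ℝ} (p v : ℂ) {L : ℝ} (hL : 0 ≤ L)
    (h : ∀ t : ℝ, 0 ≤ t → t ≤ L → ‖B.derivative.eval (p + t * v) * v‖ ≤ K * ‖B.eval (p + t * v)‖) :
    ‖B.eval (p + L * v)‖ ≤ ‖B.eval p‖ * Real.exp (K * L) := by
  have hd : ∀ t : ℝ, HasDerivAt (fun t : ℝ => B.eval (p + (t : ℂ) * v))
      (B.derivative.eval (p + t * v) * v) t := by
    intro t
    have h1 : HasDerivAt (fun t : ℝ => p + (t : ℂ) * v) v t := by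
      have h2 : HasDerivAt (fun t : ℝ => (t : ℂ)) 1 t := Complex.ofRealCLM.hasDerivAt
      have h3 := (h2.mul_const v).const_add p
      rw [one_mul] at h3
      exact h3
    exact (B.hasDerivAt _).comp t h1
  have h1 := norm_le_gronwallBound_of_norm_deriv_right_le (a := 0) (b := L)
    (f := fun t : ℝ => B.eval (p + (t : ℂ) * v))
    (f' := fun t : ℝ => B.derivative.eval (p + (t : ℂ) * v) * v) (δ := ‖B.eval p‖) (K := K)
    (ε := 0) (fun t _ => (hd t).continuousAt.continuousWithinAt)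
    (fun t _ => (hd t).hasDerivWithinAt) (by simp) (fun t ht => by
      rw [add_zero]
      exact h t ht.1 ht.2.le) L ⟨hL, le_rfl⟩
  rw [gronwallBound_ε0, sub_zero] at h1
  exact h1

/-- A polynomial with coefficients at most one which has no zeros in a sector is small there on the
exponential scale. -/
theorem sector_small {κ R : ℝ} (hκ : 0 < κ) (hκ1 : κ ≤ 1 / 4) (hR : 1 ≤ R) :
    ∃ n₀ : ℕ, ∀ n ≥ n₀, ∀ B : ℂ[X], B.natDegree ≤ n → B.coeff 0 = 1 → (∀ j, ‖B.coeff j‖ ≤ 1) →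
      (∀ x : ℝ, 0 < x → x ≤ R → ∀ z, ‖z - (x : ℂ)‖ < 2 * κ * x → B.eval z ≠ 0) →
      ∀ w : ℂ, ‖w - (R : ℂ)‖ < κ * R / 4 → ‖B.eval w‖ ≤ Real.exp n := by
  obtain ⟨η, hη, hch⟩ := chain (R := R) (M := 2 / κ) hκ (by linarith) (by positivity)
    (τ := 1 / (32 * R)) (by positivity)
  obtain ⟨n₁, hn₁⟩ := exists_nat_ge (2 / η)
  refine ⟨max n₁ 1, ?_⟩
  intro n hn B hdeg h0 hB hroot w hw
  have hn1 : (1 : ℝ) ≤ n := by exact_mod_cast (le_max_right _ _).trans hn
  have hn2 : 2 / η ≤ n := hn₁.trans (by exact_mod_cast (le_max_left _ _).trans hn)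
  have hn0 : (0 : ℝ) < n := by linarith
  set f : ℂ → ℂ := fun w => w * B.derivative.eval w / B.eval w / n with hf
  have hfd : ∀ x : ℝ, 1 / 6 ≤ x → x ≤ R → DifferentiableOn ℂ f (ball (x : ℂ) (κ * x)) := by
    intro x hx hxR z hz
    rw [mem_ball_iff_norm] at hz
    have h1 : B.eval z ≠ 0 := hroot x (by linarith) hxR z (by nlinarith)
    apply DifferentiableAt.differentiableWithinAt
    have h2 : DifferentiableAt ℂ (fun w => B.eval w) z := B.differentiableAt
    have h3 : DifferentiableAt ℂ (fun w => B.derivative.eval w) z := B.derivative.differentiableAt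
    exact ((differentiableAt_id.mul h3).div h2 h1).div_const _
  have hfM : ∀ x : ℝ, 1 / 6 ≤ x → x ≤ R → ∀ z, ‖z - (x : ℂ)‖ < κ * x → ‖f z‖ ≤ 2 / κ := by
    intro x hx hxR z hz
    have h1 := logDeriv_le hdeg hκ (by linarith : (0 : ℝ) < x) (by linarith)
      (hroot x (by linarith) hxR) hz
    rw [hf]
    simp only
    rw [norm_div, Complex.norm_natCast, div_le_iff₀ hn0]
    linarith
  have hfη : ∀ z, ‖z - ((1 / 6 : ℝ) : ℂ)‖ < κ * (1 / 6) / 4 → ‖f z‖ ≤ η := by
    intro z hz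
    have h1 : ‖z‖ ≤ 1 / 3 := by
      calc ‖z‖ = ‖(z - ((1 / 6 : ℝ) : ℂ)) + ((1 / 6 : ℝ) : ℂ)‖ := by congr 1; ring
        _ ≤ ‖z - ((1 / 6 : ℝ) : ℂ)‖ + ‖((1 / 6 : ℝ) : ℂ)‖ := norm_add_le _ _
        _ ≤ κ * (1 / 6) / 4 + 1 / 6 := by
            rw [Complex.norm_real, Real.norm_of_nonneg (by norm_num)]
            linarith
        _ ≤ 1 / 3 := by linarith
    obtain ⟨h2, -, h3⟩ := eval_small h0 hB h1
    rw [hf]
    simp only
    rw [norm_div, norm_div, norm_mul, Complex.norm_natCast, div_le_iff₀ hn0,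
      div_le_iff₀ (by linarith)]
    have h4 : 2 ≤ η * n := by
      rw [div_le_iff₀ hη] at hn2
      linarith
    calc ‖z‖ * ‖B.derivative.eval z‖ ≤ 1 / 3 * 3 :=
          mul_le_mul h1 h3 (norm_nonneg _) (by norm_num)
      _ ≤ 2 * (1 / 2) := by norm_num
      _ ≤ η * n * ‖B.eval z‖ := mul_le_mul h4 h2 (by norm_num) (by positivity)
  have hsm := hch f hfd hfM hfη
  -- the derivative
  have hder : ∀ x : ℝ, 1 / 6 ≤ x → x ≤ R → ∀ z, ‖z - (x : ℂ)‖ < κ * x / 4 →
      ‖B.derivative.eval z‖ ≤ n / (4 * R) * ‖B.eval z‖ := by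
    intro x hx hxR z hz
    have h1 := hsm x hx hxR z hz
    have hBz : B.eval z ≠ 0 := hroot x (by linarith) hxR z (by nlinarith)
    have hBz' : 0 < ‖B.eval z‖ := norm_pos_iff.2 hBz
    rw [hf] at h1
    simp only at h1
    rw [norm_div, norm_div, norm_mul, Complex.norm_natCast, div_le_iff₀ hn0,
      div_le_iff₀ hBz'] at h1
    have h2 : 1 / 8 ≤ ‖z‖ := by
      have h3 : ‖(x : ℂ)‖ ≤ ‖z‖ + ‖z - (x : ℂ)‖ := by
        calc ‖(x : ℂ)‖ = ‖z - (z - (x : ℂ))‖ := by congr 1; ring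
          _ ≤ _ := norm_sub_le _ _
      rw [Complex.norm_real, Real.norm_of_nonneg (by linarith)] at h3
      nlinarith
    have h4 : 1 / 8 * ‖B.derivative.eval z‖ ≤ 1 / (32 * R) * n * ‖B.eval z‖ :=
      (mul_le_mul_of_nonneg_right h2 (norm_nonneg _)).trans h1
    have h5 : 1 / (32 * R) * n * ‖B.eval z‖ = 1 / 8 * (n / (4 * R) * ‖B.eval z‖) := by
      field_simp
      ring
    rw [h5] at h4
    linarith
  have s1 : ‖B.eval ((R : ℝ) : ℂ)‖ ≤ 3 / 2 * Real.exp (n / 4) := by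
    have h1 := growth_segment (B := B) (K := n / (4 * R)) ((1 / 6 : ℝ) : ℂ) 1
      (L := R - 1 / 6) (by linarith) (fun t ht ht2 => by
        have h2 := hder (1 / 6 + t) (by linarith) (by linarith)
          (((1 / 6 : ℝ) : ℂ) + t * 1) (by
            have : (((1 / 6 : ℝ) : ℂ) + t * 1) - ((1 / 6 + t : ℝ) : ℂ) = 0 := by
              push_cast; ring
            rw [this, norm_zero]
            positivity)
        rw [mul_one]
        exact h2)
    have h3 : ((1 / 6 : ℝ) : ℂ) + ((R - 1 / 6 : ℝ) : ℂ) * 1 = ((R : ℝ) : ℂ) := by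
      push_cast; ring
    rw [h3] at h1
    have h4 : ‖B.eval ((1 / 6 : ℝ) : ℂ)‖ ≤ 3 / 2 := (eval_small h0 hB (by
      rw [Complex.norm_real, Real.norm_of_nonneg (by norm_num)]
      norm_num)).2.1
    have h5 : n / (4 * R) * (R - 1 / 6) ≤ n / 4 := by
      have e : (n : ℝ) / (4 * R) * (R - 1 / 6) = n / 4 * ((R - 1 / 6) / R) := by
        field_simp
      rw [e]
      have : (R - 1 / 6) / R ≤ 1 := by
        rw [div_le_one (by linarith)]
        linarith
      exact mul_le_of_le_one_right (by positivity) this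
    refine h1.trans (mul_le_mul h4 (Real.exp_le_exp.2 h5) (Real.exp_pos _).le (by norm_num))
  have s2 : ‖B.eval w‖ ≤ ‖B.eval ((R : ℝ) : ℂ)‖ * Real.exp (n / 4) := by
    have h1 := growth_segment (B := B) (K := n / 4) ((R : ℝ) : ℂ) (w - (R : ℂ))
      (L := 1) zero_le_one (fun t ht ht2 => by
        have h3 : ‖(((R : ℝ) : ℂ) + t * (w - (R : ℂ))) - ((R : ℝ) : ℂ)‖ < κ * R / 4 := by
          have : (((R : ℝ) : ℂ) + t * (w - (R : ℂ))) - ((R : ℝ) : ℂ) = t * (w - (R : ℂ)) := by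
            ring
          rw [this, norm_mul, Complex.norm_real, Real.norm_of_nonneg ht]
          calc t * ‖w - (R : ℂ)‖ ≤ 1 * ‖w - (R : ℂ)‖ :=
                mul_le_mul_of_nonneg_right ht2 (norm_nonneg _)
            _ < κ * R / 4 := by rw [one_mul]; exact hw
        have h2 := hder R (by linarith) le_rfl _ h3
        rw [norm_mul]
        have h4 : ‖w - (R : ℂ)‖ ≤ R := by nlinarith
        calc _ ≤ n / (4 * R) * ‖B.eval (((R : ℝ) : ℂ) + t * (w - (R : ℂ)))‖ * R :=
              mul_le_mul h2 h4 (norm_nonneg _) (by positivity)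
          _ = _ := by
              field_simp)
    have h3 : ((R : ℝ) : ℂ) + ((1 : ℝ) : ℂ) * (w - (R : ℂ)) = w := by
      push_cast; ring
    rw [h3, mul_one] at h1
    exact h1
  have s3 : (3 / 2 : ℝ) ≤ Real.exp (n / 2) := by
    have := Real.add_one_le_exp ((n : ℝ) / 2)
    linarith
  calc ‖B.eval w‖ ≤ 3 / 2 * Real.exp (n / 4) * Real.exp (n / 4) :=
        s2.trans (mul_le_mul_of_nonneg_right s1 (Real.exp_pos _).le)
    _ = 3 / 2 * Real.exp (n / 2) := by
        rw [mul_assoc, ← Real.exp_add]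
        congr 2
        ring
    _ ≤ Real.exp (n / 2) * Real.exp (n / 2) := mul_le_mul_of_nonneg_right s3 (Real.exp_pos _).le
    _ = Real.exp n := by
        rw [← Real.exp_add]
        congr 1
        ring

end Pool.Agent.Y607.SV
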