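import Pool.Agent.Y607.SV.Mahler

/-!
# Selection of the sections, and the positive part
-/

set_option autoImplicit false

open Finset Metric Polynomial

namespace Pool.Agent.Y607.SV

/-- The quantity `|a_k|^{1/k} k^β`. -/
noncomputable def vv (a : ℕ → ℂ) (β : ℝ) (k : ℕ) : ℝ := ‖a k‖ ^ (1 / (k : ℝ)) * (k : ℝ) ^ β

/-- The indices at which `|a_k|^{1/k} k^β` reaches a record. -/
def records (a : ℕ → ℂ) (β : ℝ) : Set ℕ :=
  {n | 1 ≤ n ∧ a n ≠ 0 ∧ ∀ k, 1 ≤ k → k ≤ n → vv a β k ≤ vv a β n}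

theorem vv_nonneg (a : ℕ → ℂ) (β : ℝ) (k : ℕ) : 0 ≤ vv a β k := by
  unfold vv
  positivity

theorem records_infinite {a : ℕ → ℂ} {β : ℝ} (h : ∀ C : ℝ, ∃ k, 1 ≤ k ∧ C < vv a β k) :
    (records a β).Infinite := by
  classical
  apply Set.infinite_of_forall_exists_gt
  intro N
  set C : ℝ := ∑ k ∈ range (N + 1), vv a β k with hC
  have hC0 : 0 ≤ C := sum_nonneg fun k _ => vv_nonneg a β k
  have hex := h C
  set n := Nat.find hex with hn
  obtain ⟨h1, h2⟩ := Nat.find_spec hex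
  rw [← hn] at h1 h2
  refine ⟨n, ⟨h1, ?_, ?_⟩, ?_⟩
  · intro h0
    unfold vv at h2
    rw [h0, norm_zero, Real.zero_rpow (by
      have : (0 : ℝ) < n := by exact_mod_cast h1
      positivity), zero_mul] at h2
    linarith
  · intro k hk1 hkn
    rcases hkn.eq_or_lt with h3 | h3
    · rw [h3]
    · have h4 := Nat.find_min hex (hn ▸ h3)
      push Not at h4
      exact (h4 hk1).trans h2.le
  · by_contra hcon
    have h5 : vv a β n ≤ C := single_le_sum (f := fun k => vv a β k)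
      (fun k _ => vv_nonneg a β k) (mem_range.2 (by omega))
    linarith

theorem record_bound {a : ℕ → ℂ} {β : ℝ} (hβ : 0 ≤ β) {n : ℕ} (hn : n ∈ records a β) {T : ℝ}
    (hT : T = Real.exp β / ‖a n‖ ^ (1 / (n : ℝ))) :
    0 < T ∧ ‖a n‖ * T ^ n = Real.exp (β * n) ∧
      ∀ k, 1 ≤ k → k ≤ n → ‖a k‖ * T ^ k ≤ Real.exp (β * n) := by
  obtain ⟨h1, h2, h3⟩ := hn
  have hn0 : (0 : ℝ) < n := by exact_mod_cast h1
  have hu : 0 < ‖a n‖ ^ (1 / (n : ℝ)) := Real.rpow_pos_of_pos (norm_pos_iff.2 h2) _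
  have hT0 : 0 < T := by rw [hT]; positivity
  have hpow : ∀ k : ℕ, 1 ≤ k → (‖a k‖ ^ (1 / (k : ℝ))) ^ k = ‖a k‖ := by
    intro k hk
    have hk0 : (k : ℝ) ≠ 0 := by
      have : (0 : ℝ) < k := by exact_mod_cast hk
      exact this.ne'
    rw [← Real.rpow_natCast, ← Real.rpow_mul (norm_nonneg _), one_div_mul_cancel hk0,
      Real.rpow_one]
  have hexp : ∀ k : ℕ, Real.exp β ^ k = Real.exp (β * k) := by
    intro k
    rw [← Real.exp_nat_mul, mul_comm]
  refine ⟨hT0, ?_, ?_⟩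
  · rw [hT, div_pow, hpow n h1, hexp, mul_div_cancel₀]
    exact (norm_pos_iff.2 h2).ne'
  · intro k hk hkn
    have hk0 : (0 : ℝ) < k := by exact_mod_cast hk
    have h4 := h3 k hk hkn
    unfold vv at h4
    have h5 : ‖a k‖ ^ (1 / (k : ℝ)) * T ≤ Real.exp (β + β * Real.log (n / k)) := by
      have e1 : Real.exp (β + β * Real.log (n / k)) =
          Real.exp β * ((n : ℝ) ^ β / (k : ℝ) ^ β) := by
        rw [Real.exp_add, ← Real.div_rpow hn0.le hk0.le, Real.rpow_def_of_pos (by positivity),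
          mul_comm β]
      rw [e1, hT, mul_div_assoc', div_le_iff₀ hu, mul_comm (‖a k‖ ^ (1 / (k : ℝ))), mul_assoc]
      refine mul_le_mul_of_nonneg_left ?_ (Real.exp_pos _).le
      have h6 : 0 < (k : ℝ) ^ β := Real.rpow_pos_of_pos hk0 _
      rw [div_mul_eq_mul_div, le_div_iff₀ h6, mul_comm ((n : ℝ) ^ β)]
      exact h4
    calc ‖a k‖ * T ^ k = (‖a k‖ ^ (1 / (k : ℝ)) * T) ^ k := by rw [mul_pow, hpow k hk]
      _ ≤ (Real.exp (β + β * Real.log (n / k))) ^ k :=
          pow_le_pow_left₀ (by positivity) h5 _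
      _ = Real.exp (k * (β + β * Real.log (n / k))) := by rw [← Real.exp_nat_mul]
      _ ≤ Real.exp (β * n) := by
          apply Real.exp_le_exp.2
          have h7 : Real.log (n / k) ≤ n / k - 1 := Real.log_le_sub_one_of_pos (by positivity)
          have h8 : k * (β + β * Real.log (n / k)) ≤ k * (β + β * (n / k - 1)) := by
            gcongr
          have h9 : (k : ℝ) * (β + β * (n / k - 1)) = β * n := by
            field_simp
            ring
          linarith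

/-- The reversed and rescaled section. -/
noncomputable def revPoly (a : ℕ → ℂ) (n : ℕ) (ω : ℂ) : ℂ[X] :=
  ∑ j ∈ range (n + 1), C (a (n - j) / (a n * ω ^ j)) * X ^ j

theorem revPoly_coeff (a : ℕ → ℂ) (n : ℕ) (ω : ℂ) (j : ℕ) :
    (revPoly a n ω).coeff j = if j ≤ n then a (n - j) / (a n * ω ^ j) else 0 := by
  unfold revPoly
  rw [finset_sum_coeff]
  simp only [coeff_C_mul, coeff_X_pow, mul_ite, mul_one, mul_zero]
  rw [sum_ite_eq]
  simp only [mem_range, Nat.lt_succ_iff]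

theorem revPoly_eval {a : ℕ → ℂ} {n : ℕ} {ω : ℂ} (hω : ω ≠ 0) (han : a n ≠ 0) {w : ℂ}
    (hw : w ≠ 0) :
    ∑ k ∈ range (n + 1), a k * (ω / w) ^ k = (ω / w) ^ n * a n * (revPoly a n ω).eval w := by
  unfold revPoly
  rw [eval_finset_sum, mul_sum, ← sum_range_reflect]
  apply sum_congr rfl
  intro j hj
  have hj' : j ≤ n := Nat.lt_succ_iff.1 (mem_range.1 hj)
  rw [eval_mul, eval_C, eval_pow, eval_X]
  have e1 : n + 1 - 1 - j = n - j := by omega
  rw [e1]
  obtain ⟨i, rfl⟩ := Nat.exists_eq_add_of_le hj'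
  rw [Nat.add_sub_cancel_left, div_pow, div_pow, pow_add ω, pow_add w]
  field_simp

/-- For a power series which converges everywhere the coefficients decay superexponentially. -/
theorem root_small {a : ℕ → ℂ} (hE : ∀ z : ℂ, Summable fun k => a k * z ^ k) {ρ : ℝ}
    (hρ : 0 < ρ) : ∃ N : ℕ, ∀ n ≥ N, 1 ≤ n → ‖a n‖ ^ (1 / (n : ℝ)) ≤ 1 / ρ := by
  have h1 := (hE (ρ : ℂ)).tendsto_atTop_zero.norm
  rw [norm_zero] at h1
  have h2 := h1.eventually (gt_mem_nhds (zero_lt_one (α := ℝ)))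
  rw [Filter.eventually_atTop] at h2
  obtain ⟨N, hN⟩ := h2
  refine ⟨N, fun n hn hn1 => ?_⟩
  have h3 := (hN n hn).le
  rw [norm_mul, norm_pow, Complex.norm_real, Real.norm_of_nonneg hρ.le] at h3
  have hn0 : (0 : ℝ) < n := by exact_mod_cast hn1
  have h4 : ‖a n‖ ≤ (1 / ρ) ^ n := by
    rw [one_div, inv_pow, ← one_div, le_div_iff₀ (by positivity)]
    exact h3
  calc ‖a n‖ ^ (1 / (n : ℝ)) ≤ ((1 / ρ) ^ n) ^ (1 / (n : ℝ)) :=
        Real.rpow_le_rpow (norm_nonneg _) h4 (by positivity)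
    _ = 1 / ρ := by
        rw [← Real.rpow_natCast, ← Real.rpow_mul (by positivity), mul_one_div_cancel hn0.ne',
          Real.rpow_one]

/-- The positive part: along the records, the sections have zeros in every sector, far away. -/
theorem records_zero {a : ℕ → ℂ} (hE : ∀ z : ℂ, Summable fun k => a k * z ^ k) {β : ℝ}
    (hβ : 0 < β) {K : ℝ} (hK : 0 < K) (x₀ : ℝ) :
    ∃ m₀ : ℕ, ∀ n ∈ records a β, m₀ ≤ n → ∀ θ : ℝ, ∃ w : ℂ, x₀ ≤ w.re ∧ |w.im| ≤ K * w.re ∧
      ∑ k ∈ range (n + 1), a k * (Complex.exp ((θ : ℂ) * Complex.I) * w) ^ k = 0 := by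
  classical
  by_cases hne : ∃ q, a q ≠ 0
  swap
  · push Not at hne
    exact ⟨0, fun n hn => absurd (hne n) hn.2.1⟩
  set q := Nat.find hne with hq
  have hq0 : a q ≠ 0 := Nat.find_spec hne
  have hqmin : ∀ j < q, a j = 0 := fun j hj => not_not.1 (Nat.find_min hne hj)
  set κ : ℝ := min (1 / 4) (K / 4) with hκdef
  have hκ : 0 < κ := lt_min (by norm_num) (by positivity)
  have hκ1 : κ ≤ 1 / 4 := min_le_left _ _
  have hκ2 : κ ≤ K / 4 := min_le_right _ _
  obtain ⟨R, hR, n₀, hroot⟩ := exists_root (C₀ := -Real.log ‖a q‖) hκ hκ1 hβ.le q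
  obtain ⟨N₁, hN₁⟩ := root_small hE (ρ := max 1 (8 * R * |x₀|)) (by positivity)
  obtain ⟨N₂, hN₂⟩ := exists_nat_ge (‖a 0‖ / β)
  refine ⟨max (max n₀ N₁) (max N₂ q), ?_⟩
  intro n hn hnm θ
  have hn1 : n₀ ≤ n := ((le_max_left _ _).trans (le_max_left _ _)).trans hnm
  have hn2 : N₁ ≤ n := ((le_max_right _ _).trans (le_max_left _ _)).trans hnm
  have hn3 : N₂ ≤ n := ((le_max_left _ _).trans (le_max_right _ _)).trans hnm
  have hn4 : q ≤ n := ((le_max_right _ _).trans (le_max_right _ _)).trans hnm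
  have hrec := hn
  obtain ⟨h1, han, -⟩ := hn
  have hn0 : (0 : ℝ) < n := by exact_mod_cast h1
  set T : ℝ := Real.exp β / ‖a n‖ ^ (1 / (n : ℝ)) with hT
  obtain ⟨hT0, hTn, hTk⟩ := record_bound hβ.le hrec hT
  have hu : 0 < ‖a n‖ ^ (1 / (n : ℝ)) := Real.rpow_pos_of_pos (norm_pos_iff.2 han) _
  have hTbig : max 1 (8 * R * |x₀|) ≤ T := by
    have h3 := hN₁ n hn2 h1
    have hm : 0 < max 1 (8 * R * |x₀|) := by positivity
    rw [hT, le_div_iff₀ hu]
    calc max 1 (8 * R * |x₀|) * ‖a n‖ ^ (1 / (n : ℝ))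
        ≤ max 1 (8 * R * |x₀|) * (1 / max 1 (8 * R * |x₀|)) :=
          mul_le_mul_of_nonneg_left h3 hm.le
      _ = 1 := mul_one_div_cancel hm.ne'
      _ ≤ Real.exp β := Real.one_le_exp hβ.le
  have hT1 : 1 ≤ T := (le_max_left _ _).trans hTbig
  have hTx : 8 * R * |x₀| ≤ T := (le_max_right _ _).trans hTbig
  have hTk0 : ∀ k, k ≤ n → ‖a k‖ * T ^ k ≤ Real.exp (β * n) := by
    intro k hk
    rcases Nat.eq_zero_or_pos k with h0 | h0
    · rw [h0, pow_zero, mul_one]
      have h3 : ‖a 0‖ / β ≤ n := hN₂.trans (by exact_mod_cast hn3)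
      rw [div_le_iff₀ hβ] at h3
      have h4 := Real.add_one_le_exp (β * n)
      linarith
    · exact hTk k h0 hk
  set e : ℂ := Complex.exp ((θ : ℂ) * Complex.I) with he
  have he1 : ‖e‖ = 1 := Complex.norm_exp_ofReal_mul_I θ
  have he0 : e ≠ 0 := Complex.exp_ne_zero _
  set ω : ℂ := e * T with hω
  have hωn : ‖ω‖ = T := by
    rw [hω, norm_mul, he1, one_mul, Complex.norm_real, Real.norm_of_nonneg hT0.le]
  have hω0 : ω ≠ 0 := by
    rw [← norm_pos_iff, hωn]
    exact hT0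
  have hann : 0 < ‖a n‖ := norm_pos_iff.2 han
  have hcn : ∀ j, j ≤ n → ‖a (n - j) / (a n * ω ^ j)‖ =
      ‖a (n - j)‖ * T ^ (n - j) / Real.exp (β * n) := by
    intro j hj
    rw [norm_div, norm_mul, norm_pow, hωn, ← hTn]
    have e1 : T ^ n = T ^ (n - j) * T ^ j := by rw [← pow_add, Nat.sub_add_cancel hj]
    rw [e1]
    field_simp
  set B := revPoly a n ω with hB
  have hB0 : B.coeff 0 = 1 := by
    rw [hB, revPoly_coeff, if_pos (Nat.zero_le _), Nat.sub_zero, pow_zero, mul_one, div_self han]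
  have hBc : ∀ j, ‖B.coeff j‖ ≤ 1 := by
    intro j
    rw [hB, revPoly_coeff]
    split_ifs with hj
    · rw [hcn j hj, div_le_one (Real.exp_pos _)]
      exact hTk0 _ (Nat.sub_le _ _)
    · rw [norm_zero]
      exact zero_le_one
  have hcq : B.coeff (n - q) = a q / (a n * ω ^ (n - q)) := by
    rw [hB, revPoly_coeff, if_pos (Nat.sub_le _ _), Nat.sub_sub_self hn4]
  have hcq0 : B.coeff (n - q) ≠ 0 := by
    rw [hcq]
    exact div_ne_zero hq0 (mul_ne_zero han (pow_ne_zero _ hω0))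
  have hdeg1 : B.natDegree ≤ n - q := by
    rw [natDegree_le_iff_coeff_eq_zero]
    intro j hj
    rw [hB, revPoly_coeff]
    split_ifs with hjn
    · rw [hqmin (n - j) (by omega), zero_div]
    · rfl
  have hdeg : B.natDegree = n - q := le_antisymm hdeg1 (le_natDegree_of_ne_zero hcq0)
  have hlead : Real.exp (-(β * n) - -Real.log ‖a q‖) ≤ ‖B.leadingCoeff‖ := by
    have e1 : ‖B.leadingCoeff‖ = ‖a q‖ * T ^ q / Real.exp (β * n) := by
      rw [leadingCoeff, hdeg, hB, revPoly_coeff, if_pos (Nat.sub_le _ _), hcn _ (Nat.sub_le _ _),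
        Nat.sub_sub_self hn4]
    rw [e1, sub_neg_eq_add, Real.exp_add, Real.exp_log (norm_pos_iff.2 hq0), Real.exp_neg,
      mul_comm, ← div_eq_mul_inv]
    apply div_le_div_of_nonneg_right _ (Real.exp_pos _).le
    exact le_mul_of_one_le_right (norm_nonneg _) (one_le_pow₀ hT1)
  obtain ⟨x, hx0, hxR, w, hw1, hw2⟩ := hroot n hn1 B (by omega) (by omega) hB0 hBc hlead
  -- the zero
  have hwre : |w.re - x| ≤ ‖w - (x : ℂ)‖ := by
    have := Complex.abs_re_le_norm (w - (x : ℂ))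
    simpa using this
  have hwim : |w.im| ≤ ‖w - (x : ℂ)‖ := by
    have := Complex.abs_im_le_norm (w - (x : ℂ))
    simpa using this
  have hre1 : x / 2 ≤ w.re := by
    have h3 := (abs_le.1 hwre).1
    nlinarith
  have hre2 : w.re ≤ 2 * x := by
    have h3 := (abs_le.1 hwre).2
    nlinarith
  have him : |w.im| ≤ 2 * κ * x := hwim.trans hw1.le
  have hre0 : 0 < w.re := by linarith
  have hw0 : w ≠ 0 := by
    intro h0
    rw [h0, Complex.zero_re] at hre0
    exact lt_irrefl _ hre0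
  refine ⟨(T : ℂ) / w, ?_, ?_, ?_⟩
  · rw [Complex.div_re, Complex.ofReal_re, Complex.ofReal_im, zero_mul, zero_div, add_zero]
    have hns : Complex.normSq w ≤ 8 * x * w.re := by
      rw [Complex.normSq_apply]
      have h3 : w.im * w.im ≤ (2 * κ * x) ^ 2 := by
        rw [← sq, ← sq_abs]
        exact pow_le_pow_left₀ (abs_nonneg _) him 2
      have h4 : (2 * κ * x) ^ 2 ≤ x / 2 * x := by
        have h5 : 2 * κ * x ≤ x / 2 := by nlinarith
        have h6 : 0 ≤ 2 * κ * x := by positivity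
        calc (2 * κ * x) ^ 2 ≤ (x / 2) ^ 2 := pow_le_pow_left₀ h6 h5 2
          _ ≤ x / 2 * x := by nlinarith
      have h7 : w.re * w.re ≤ 2 * x * w.re := mul_le_mul_of_nonneg_right hre2 hre0.le
      have h8 : x / 2 * x ≤ w.re * x := mul_le_mul_of_nonneg_right hre1 hx0.le
      nlinarith
    have hns0 : 0 < Complex.normSq w := Complex.normSq_pos.2 hw0
    rw [le_div_iff₀ hns0]
    have h5 : x₀ * Complex.normSq w ≤ |x₀| * (8 * x * w.re) :=
      (mul_le_mul_of_nonneg_right (le_abs_self _) hns0.le).trans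
        (mul_le_mul_of_nonneg_left hns (abs_nonneg _))
    have h6 : |x₀| * (8 * x * w.re) ≤ |x₀| * (8 * R * w.re) := by
      gcongr
    have h7 : |x₀| * (8 * R * w.re) = 8 * R * |x₀| * w.re := by ring
    have h8 : 8 * R * |x₀| * w.re ≤ T * w.re := mul_le_mul_of_nonneg_right hTx hre0.le
    linarith
  · rw [Complex.div_re, Complex.div_im, Complex.ofReal_re, Complex.ofReal_im, zero_mul, zero_div,
      zero_mul, zero_div, add_zero, zero_sub, abs_neg, abs_div, abs_mul, abs_of_pos hT0,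
      abs_of_pos (Complex.normSq_pos.2 hw0), mul_div_assoc']
    apply div_le_div_of_nonneg_right _ (Complex.normSq_pos.2 hw0).le
    have h3 : |w.im| ≤ K * w.re := by
      calc |w.im| ≤ 2 * κ * x := him
        _ ≤ 2 * (K / 4) * x := by gcongr
        _ = K * (x / 2) := by ring
        _ ≤ K * w.re := mul_le_mul_of_nonneg_left hre1 hK.le
    nlinarith
  · have h3 := revPoly_eval hω0 han hw0
    rw [← hB, hw2, mul_zero] at h3
    have e1 : e * ((T : ℂ) / w) = ω / w := by rw [hω, mul_div_assoc]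
    rw [e1]
    exact h3

end Pool.Agent.Y607.SV
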